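import Mathlib

/-!
# MP_3f0cb5_an: the entropy of the fiberwise bounded orbits is discontinuous at angle zero
-/

namespace Pool.Agent.Results.MP_3f0cb5_an.DiscontinuousAtZero

open Filter Topology Matrix

/-! ### definitions -/

/-- real two by two matrices -/
abbrev Mat := Matrix (Fin 2) (Fin 2) ℝ

/-- the hyperbolic matrix -/
noncomputable def D : Mat := !![2, 0; 0, 1 / 2]

/-- the rotation -/
noncomputable def R (θ : ℝ) : Mat := !![Real.cos θ, -Real.sin θ; Real.sin θ, Real.cos θ]

/-- the generator of the cocycle; the symbol `1` is `true`, the symbol `2` is `false` -/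
noncomputable def A (θ : ℝ) (b : Bool) : Mat := if b then D else R θ

/-- the fiber products -/
noncomputable def coc (θ : ℝ) (x : ℤ → Bool) : ℕ → Mat
  | 0 => 1
  | n + 1 => A θ (x n) * coc θ x n

/-- the iterates of the shift -/
def sh (m : ℤ) (x : ℤ → Bool) : ℤ → Bool := fun i => x (i + m)

/-- the Frobenius norm -/
noncomputable def nrm (M : Mat) : ℝ := Real.sqrt (∑ i, ∑ j, M i j ^ 2)

/-- the compact invariant sets of uniformly bounded orbits -/
def B (θ κ : ℝ) : Set (ℤ → Bool) := {x | ∀ (m : ℤ) (n : ℕ), nrm (coc θ (sh m x) n) ≤ κ}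

/-- the number of words of length `n` in `B θ κ` -/
noncomputable def cnt (θ κ : ℝ) (n : ℕ) : ℕ :=
  Set.ncard {w : Fin n → Bool | ∃ x ∈ B θ κ, ∀ i : Fin n, x (i : ℕ) = w i}

/-- the topological entropy of the shift on `B θ κ` -/
noncomputable def hB (θ κ : ℝ) : ℝ :=
  limsup (fun n : ℕ => Real.log (cnt θ κ n) / n) atTop

/-- the entropy of the set of fiberwise bounded orbits -/
noncomputable def h (θ : ℝ) : ℝ := ⨆ κ : ℕ, hB θ κ

/-! ### algebra -/

/-- squared Frobenius norm -/
def N (M : Mat) : ℝ := M 0 0 ^ 2 + M 0 1 ^ 2 + M 1 0 ^ 2 + M 1 1 ^ 2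

/-- first diagonal entry of `M Mᵀ` -/
def pp (M : Mat) : ℝ := M 0 0 ^ 2 + M 0 1 ^ 2

/-- off-diagonal entry of `M Mᵀ` -/
def qq (M : Mat) : ℝ := M 0 0 * M 1 0 + M 0 1 * M 1 1

/-- second diagonal entry of `M Mᵀ` -/
def rr (M : Mat) : ℝ := M 1 0 ^ 2 + M 1 1 ^ 2

/-- half of the difference -/
noncomputable def XX (M : Mat) : ℝ := (rr M - pp M) / 2

/-- determinant one -/
def D1 (M : Mat) : Prop := M 0 0 * M 1 1 - M 0 1 * M 1 0 = 1

lemma nrm_eq (M : Mat) : nrm M = Real.sqrt (N M) := by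
  unfold nrm N
  simp only [Fin.sum_univ_two]
  congr 1; ring

lemma N_eq (M : Mat) : N M = pp M + rr M := by unfold N pp rr; ring

lemma N_nonneg (M : Mat) : 0 ≤ N M := by unfold N; positivity

lemma mul_apply' (M M' : Mat) (i j : Fin 2) : (M * M') i j = M i 0 * M' 0 j + M i 1 * M' 1 j := by
  rw [Matrix.mul_apply, Fin.sum_univ_two]

lemma N_mul (M M' : Mat) : N (M * M') ≤ N M * N M' := by
  unfold N
  simp only [mul_apply']
  nlinarith [sq_nonneg (M 0 0 * M' 1 0 - M 0 1 * M' 0 0), sq_nonneg (M 0 0 * M' 1 1 - M 0 1 * M' 0 1),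
    sq_nonneg (M 1 0 * M' 1 0 - M 1 1 * M' 0 0), sq_nonneg (M 1 0 * M' 1 1 - M 1 1 * M' 0 1)]

lemma D1_mul {M M' : Mat} (h : D1 M) (h' : D1 M') : D1 (M * M') := by
  unfold D1 at *
  simp only [mul_apply']
  linear_combination (M' 0 0 * M' 1 1 - M' 0 1 * M' 1 0) * h + h'

lemma D1_one : D1 1 := by unfold D1; simp

lemma N_one : N 1 = 2 := by unfold N; simp; norm_num

lemma D1_D : D1 D := by unfold D1 D; simp

lemma D1_R (θ : ℝ) : D1 (R θ) := by
  unfold D1 R; simp
  have := Real.sin_sq_add_cos_sq θ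
  nlinarith

lemma D1_A (θ : ℝ) (b : Bool) : D1 (A θ b) := by
  unfold A; split_ifs
  · exact D1_D
  · exact D1_R θ

lemma pqr {M : Mat} (h : D1 M) : pp M * rr M = 1 + qq M ^ 2 := by
  unfold D1 at h; unfold pp rr qq
  linear_combination (M 0 0 * M 1 1 - M 0 1 * M 1 0 + 1) * h

lemma pp_D (M : Mat) : pp (D * M) = 4 * pp M := by
  unfold pp D; simp only [mul_apply']; simp; ring

lemma rr_D (M : Mat) : rr (D * M) = rr M / 4 := by
  unfold rr D; simp only [mul_apply']; simp; ring

lemma qq_D (M : Mat) : qq (D * M) = qq M := by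
  unfold qq D; simp only [mul_apply']; simp; ring

lemma N_R (θ : ℝ) (M : Mat) : N (R θ * M) = N M := by
  unfold N R; simp only [mul_apply']; simp
  have := Real.sin_sq_add_cos_sq θ
  linear_combination (M 0 0 ^ 2 + M 0 1 ^ 2 + M 1 0 ^ 2 + M 1 1 ^ 2) * this

lemma XX_R (θ : ℝ) (M : Mat) :
    XX (R θ * M) = XX M * Real.cos (2 * θ) + qq M * Real.sin (2 * θ) := by
  unfold XX rr pp qq R; simp only [mul_apply']; simp
  rw [Real.cos_two_mul', Real.sin_two_mul]
  ring

lemma qq_R (θ : ℝ) (M : Mat) :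
    qq (R θ * M) = qq M * Real.cos (2 * θ) - XX M * Real.sin (2 * θ) := by
  unfold XX rr pp qq R; simp only [mul_apply']; simp
  rw [Real.cos_two_mul', Real.sin_two_mul]
  ring

/-- action of a word -/
noncomputable def act (θ : ℝ) : List Bool → Mat → Mat
  | [], M => M
  | b :: w, M => act θ w (A θ b * M)

/-- all partial products are small -/
def Good (θ K : ℝ) : List Bool → Mat → Prop
  | [], M => N M ≤ K
  | b :: w, M => N M ≤ K ∧ Good θ K w (A θ b * M)

lemma act_append (θ : ℝ) (u w : List Bool) (M : Mat) : act θ (u ++ w) M = act θ w (act θ u M) := by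
  induction u generalizing M with
  | nil => rfl
  | cons b u ih => exact ih _

lemma Good_head {θ K : ℝ} {w : List Bool} {M : Mat} (h : Good θ K w M) : N M ≤ K := by
  cases w with
  | nil => exact h
  | cons b w => exact h.1

lemma Good_append {θ K : ℝ} {u w : List Bool} {M : Mat} (h1 : Good θ K u M)
    (h2 : Good θ K w (act θ u M)) : Good θ K (u ++ w) M := by
  induction u generalizing M with
  | nil => exact h2
  | cons b u ih => exact ⟨h1.1, ih h1.2 h2⟩

lemma Good_last {θ K : ℝ} {w : List Bool} {M : Mat} (h : Good θ K w M) : N (act θ w M) ≤ K := by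
  induction w generalizing M with
  | nil => exact h
  | cons b w ih => exact ih h.2

lemma Good_take {θ K : ℝ} {w : List Bool} {M : Mat} (h : Good θ K w M) (n : ℕ) :
    N (act θ (w.take n) M) ≤ K := by
  induction w generalizing M n with
  | nil => rw [List.take_nil]; exact h
  | cons b w ih =>
    cases n with
    | zero => exact h.1
    | succ n => exact ih h.2 n

lemma Good_mono {θ K K' : ℝ} (hK : K ≤ K') {w : List Bool} {M : Mat} (h : Good θ K w M) :
    Good θ K' w M := by
  induction w generalizing M with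
  | nil => exact le_trans h hK
  | cons b w ih => exact ⟨h.1.trans hK, ih h.2⟩

lemma D1_act {θ : ℝ} {w : List Bool} {M : Mat} (h : D1 M) : D1 (act θ w M) := by
  induction w generalizing M with
  | nil => exact h
  | cons b w ih => exact ih (D1_mul (D1_A θ b) h)

lemma act_rep (θ : ℝ) (j : ℕ) (M : Mat) :
    N (act θ (List.replicate j false) M) = N M ∧
    XX (act θ (List.replicate j false) M) =
      XX M * Real.cos (2 * θ * j) + qq M * Real.sin (2 * θ * j) ∧
    qq (act θ (List.replicate j false) M) =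
      qq M * Real.cos (2 * θ * j) - XX M * Real.sin (2 * θ * j) := by
  induction j generalizing M with
  | zero => simp [act]
  | succ j ih =>
    obtain ⟨h1, h2, h3⟩ := ih (R θ * M)
    have e : act θ (List.replicate (j + 1) false) M = act θ (List.replicate j false) (R θ * M) := rfl
    rw [e, h1, h2, h3, N_R, XX_R, qq_R]
    have e2 : 2 * θ * ((j + 1 : ℕ) : ℝ) = 2 * θ * j + 2 * θ := by push_cast; ring
    rw [e2, Real.cos_add, Real.sin_add]
    refine ⟨rfl, by ring, by ring⟩

lemma Good_rep {θ K : ℝ} (j : ℕ) {M : Mat} (h : N M ≤ K) :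
    Good θ K (List.replicate j false) M := by
  induction j generalizing M with
  | zero => exact h
  | succ j ih => exact ⟨h, ih (by rw [show A θ false = R θ from rfl, N_R]; exact h)⟩

/-- states from which the hyperbolic matrix reduces the norm -/
def Ready (θ : ℝ) (M : Mat) : Prop :=
  0 ≤ qq M ∧ qq M * Real.cos (2 * θ) ≤ XX M * Real.sin (2 * θ)

lemma rot {θ : ℝ} (h0 : 0 < θ) (h1 : 2 * θ < Real.pi) {M : Mat} {ρ φ : ℝ} (hρ : 0 ≤ ρ)
    (hX : XX M = ρ * Real.cos φ) (hq : qq M = ρ * Real.sin φ) (hφ : 0 ≤ φ) {J : ℕ}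
    (hJ : φ ≤ 2 * θ * J) :
    ∃ j ≤ J, Ready θ (act θ (List.replicate j false) M) := by
  set j := ⌊φ / (2 * θ)⌋₊ with hj
  have h2 : 0 < 2 * θ := by linarith
  have hj1 : (j : ℝ) * (2 * θ) ≤ φ := by
    rw [← le_div_iff₀ h2]; exact Nat.floor_le (by positivity)
  have hj2 : φ < (j + 1) * (2 * θ) := by
    rw [← div_lt_iff₀ h2]; exact Nat.lt_floor_add_one _
  have hjJ : j ≤ J := by
    have : (j : ℝ) * (2 * θ) ≤ J * (2 * θ) := by linarith
    have := le_of_mul_le_mul_right this h2
    exact_mod_cast this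
  obtain ⟨-, e2, e3⟩ := act_rep θ j M
  refine ⟨j, hjJ, ?_, ?_⟩
  · rw [e3, hX, hq]
    have : ρ * Real.sin φ * Real.cos (2 * θ * j) - ρ * Real.cos φ * Real.sin (2 * θ * j) =
        ρ * Real.sin (φ - 2 * θ * j) := by rw [Real.sin_sub]; ring
    rw [this]
    apply mul_nonneg hρ
    apply Real.sin_nonneg_of_nonneg_of_le_pi <;> linarith
  · rw [e2, e3, hX, hq, ← sub_nonneg]
    have : (ρ * Real.cos φ * Real.cos (2 * θ * j) + ρ * Real.sin φ * Real.sin (2 * θ * j)) *
        Real.sin (2 * θ) - (ρ * Real.sin φ * Real.cos (2 * θ * j) -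
        ρ * Real.cos φ * Real.sin (2 * θ * j)) * Real.cos (2 * θ) =
        ρ * Real.sin (2 * θ - (φ - 2 * θ * j)) := by
      rw [Real.sin_sub, Real.sin_sub, Real.cos_sub]; ring
    rw [this]
    apply mul_nonneg hρ
    apply Real.sin_nonneg_of_nonneg_of_le_pi <;> linarith

lemma polar (M : Mat) : ∃ ρ φ : ℝ, 0 ≤ ρ ∧ 0 ≤ φ ∧ φ ≤ 2 * Real.pi ∧
    XX M = ρ * Real.cos φ ∧ qq M = ρ * Real.sin φ ∧
    (0 ≤ XX M → 0 ≤ qq M → φ ≤ Real.pi / 2) := by
  set Z : ℂ := ⟨XX M, qq M⟩ with hZ
  have e1 : XX M = ‖Z‖ * Real.cos Z.arg := (Complex.norm_mul_cos_arg Z).symm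
  have e2 : qq M = ‖Z‖ * Real.sin Z.arg := (Complex.norm_mul_sin_arg Z).symm
  have hpi := Real.pi_pos
  rcases le_or_gt 0 Z.arg with h | h
  · refine ⟨‖Z‖, Z.arg, norm_nonneg _, h, by have := Complex.arg_le_pi Z; linarith, e1, e2, ?_⟩
    intro hX _
    have := (Complex.abs_arg_le_pi_div_two_iff (z := Z)).2 hX
    exact (le_abs_self _).trans this
  · refine ⟨‖Z‖, Z.arg + 2 * Real.pi, norm_nonneg _, by have := Complex.neg_pi_lt_arg Z; linarith,
      by linarith, by rw [Real.cos_add_two_pi]; exact e1, by rw [Real.sin_add_two_pi]; exact e2, ?_⟩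
    intro _ hq
    exact absurd ((Complex.arg_nonneg_iff (z := Z)).2 hq) (not_le.2 h)

lemma Dready {θ : ℝ} (h0 : 0 < θ) (h1 : θ ≤ 1 / 100) {M : Mat} (hM : D1 M) (hr : Ready θ M)
    (hN : 16 < N M) : N (D * M) ≤ 3 / 8 * N M ∧
      ∃ j ≤ 16, Ready θ (act θ (List.replicate j false) (D * M)) := by
  obtain ⟨hq, hr⟩ := hr
  have hp0 : 0 ≤ pp M := by unfold pp; positivity
  have hr0 : 0 ≤ rr M := by unfold rr; positivity
  have hpqr := pqr hM
  have hpi := Real.pi_gt_three
  have hpi4 := Real.pi_le_four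
  have hs2 : Real.sin (2 * θ) ≤ 2 * θ := Real.sin_le (by linarith)
  have hs2' : 0 < Real.sin (2 * θ) := Real.sin_pos_of_pos_of_lt_pi (by linarith) (by linarith)
  have hc2 : 9 / 10 ≤ Real.cos (2 * θ) := by
    have := Real.one_sub_sq_div_two_le_cos (x := 2 * θ)
    nlinarith
  have hX0 : 0 ≤ XX M := by
    by_contra hcon
    push Not at hcon
    have := mul_neg_of_neg_of_pos hcon hs2'
    have := mul_nonneg hq (show 0 ≤ Real.cos (2 * θ) by linarith)
    linarith
  have hXr : XX M ≤ rr M / 2 := by unfold XX; linarith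
  have hq1 : qq M * (9 / 10) ≤ rr M * θ := by
    have e1 := mul_le_mul_of_nonneg_left hc2 hq
    have e2 := mul_le_mul hXr hs2 hs2'.le (by linarith)
    linarith
  have hq2 : qq M ≤ rr M / 90 := by nlinarith
  have hpr : pp M ≤ rr M := by unfold XX at hX0; linarith
  have hNe := N_eq M
  have hp32 : pp M ≤ rr M / 32 := by
    by_contra hcon
    push Not at hcon
    have hr8 : 8 < rr M := by linarith
    have e1 : rr M / 32 * rr M ≤ pp M * rr M := mul_le_mul_of_nonneg_right hcon.le hr0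
    have e2 : qq M ^ 2 ≤ (rr M / 90) ^ 2 := pow_le_pow_left₀ hq hq2 2
    nlinarith
  refine ⟨by rw [N_eq (D * M), pp_D, rr_D, hNe]; linarith, ?_⟩
  obtain ⟨ρ, φ, hρ, hφ, -, hX', hq', hφ2⟩ := polar (D * M)
  have hXD : XX (D * M) = (rr M / 4 - 4 * pp M) / 2 := by unfold XX; rw [pp_D, rr_D]
  have hX1 : rr M / 16 ≤ XX (D * M) := by rw [hXD]; linarith
  have hr1 : 0 < rr M := by linarith
  have hφ3 := hφ2 (by linarith) (by rw [qq_D]; exact hq)
  refine rot h0 (by linarith) hρ hX' hq' hφ ?_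
  -- `φ ≤ 32 θ`
  by_contra hcon
  push Not at hcon
  have hρ0 : 0 < ρ := by
    rcases hρ.lt_or_eq with h | h
    · exact h
    · exfalso; rw [← h, zero_mul] at hX'; linarith
  have hs : 0 < Real.sin (φ - 32 * θ) :=
    Real.sin_pos_of_pos_of_lt_pi (by push_cast at hcon; linarith) (by linarith)
  have e1 : 0 < ρ * Real.sin (φ - 32 * θ) := mul_pos hρ0 hs
  rw [Real.sin_sub] at e1
  have e2 : 0 < qq (D * M) * Real.cos (32 * θ) - XX (D * M) * Real.sin (32 * θ) := by
    rw [hX', hq']; linarith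
  rw [qq_D] at e2
  have e3 : 2 / Real.pi * (32 * θ) ≤ Real.sin (32 * θ) := Real.mul_le_sin (by linarith) (by linarith)
  have e4 : 20 * θ ≤ 2 / Real.pi * (32 * θ) := by
    have : 5 / 8 ≤ 2 / Real.pi := by
      rw [div_le_div_iff₀ (by norm_num) (by linarith)]
      linarith [Real.pi_lt_d2]
    nlinarith
  have e5 : qq M * Real.cos (32 * θ) ≤ qq M := by
    have := mul_le_mul_of_nonneg_left (Real.cos_le_one (32 * θ)) hq
    linarith
  have e6 : rr M / 16 * (20 * θ) ≤ XX (D * M) * Real.sin (32 * θ) :=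
    mul_le_mul hX1 (e4.trans e3) (by positivity) (by linarith)
  have e7 : 0 < rr M * θ := mul_pos hr1 h0
  nlinarith

/-- the return to a bounded region -/
lemma cycle {θ : ℝ} (h0 : 0 < θ) (h1 : θ ≤ 1 / 100) (k : ℕ) {M : Mat} (hM : D1 M)
    (hr : Ready θ M) (hN : N M ≤ 16 * (8 / 3) ^ k) :
    ∃ w : List Bool, w.length ≤ 17 * k ∧ Good θ (N M) w M ∧ N (act θ w M) ≤ 16 := by
  induction k generalizing M with
  | zero => exact ⟨[], by simp, le_rfl, by rw [pow_zero, mul_one] at hN; exact hN⟩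
  | succ k ih =>
    rcases le_or_gt (N M) 16 with h | h
    · exact ⟨[], by simp, le_rfl, h⟩
    · obtain ⟨e1, j, hj, hrj⟩ := Dready h0 h1 hM hr h
      set M' := act θ (List.replicate j false) (D * M) with hM'
      have e2 : N M' = N (D * M) := (act_rep θ j _).1
      obtain ⟨w, hw1, hw2, hw3⟩ := ih (D1_act (D1_mul D1_D hM)) hrj (by
        rw [e2]
        refine e1.trans ?_
        rw [pow_succ] at hN
        linarith)
      have e3 : N M' ≤ N M := by rw [e2]; linarith
      refine ⟨true :: (List.replicate j false ++ w), ?_, ?_, ?_⟩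
      · simp only [List.length_cons, List.length_append, List.length_replicate]
        omega
      · refine ⟨le_rfl, Good_append (Good_rep j (by
          rw [show A θ true = D from rfl]; linarith)) ?_⟩
        exact Good_mono e3 hw2
      · show N (act θ (List.replicate j false ++ w) (D * M)) ≤ 16
        rw [act_append]; exact hw3

lemma ret {θ : ℝ} (h0 : 0 < θ) (h1 : θ ≤ 1 / 100) {J : ℕ} (hJ : Real.pi ≤ θ * J) (m : ℕ) {M : Mat}
    (hM : D1 M) (hN : N M ≤ 16 * 4 ^ m) :
    ∃ w : List Bool, w.length ≤ J + 34 * m ∧ Good θ (N M) w M ∧ N (act θ w M) ≤ 16 := by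
  obtain ⟨ρ, φ, hρ, hφ, hφ2, hX, hq, -⟩ := polar M
  have hpi := Real.pi_gt_three
  obtain ⟨j, hj, hrj⟩ := rot h0 (by linarith) hρ hX hq hφ (J := J) (by linarith)
  set M' := act θ (List.replicate j false) M with hM'
  have e2 : N M' = N M := (act_rep θ j _).1
  obtain ⟨w, hw1, hw2, hw3⟩ := cycle h0 h1 (2 * m) (D1_act hM) hrj (by
    rw [e2]
    refine hN.trans ?_
    rw [pow_mul]
    gcongr
    norm_num)
  refine ⟨List.replicate j false ++ w, ?_, Good_append (Good_rep j le_rfl) ?_, ?_⟩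
  · simp only [List.length_append, List.length_replicate]
    omega
  · rw [← hM', ← e2]; exact hw2
  · rw [act_append]; exact hw3

lemma N_A (θ : ℝ) (b : Bool) (M : Mat) : N (A θ b * M) ≤ 4 * N M := by
  cases b with
  | false => rw [show A θ false = R θ from rfl, N_R]; linarith [N_nonneg M]
  | true =>
    rw [show A θ true = D from rfl, N_eq, N_eq M, pp_D, rr_D]
    have hr0 : 0 ≤ rr M := by unfold rr; positivity
    linarith

lemma free {θ : ℝ} (u : List Bool) (M : Mat) : Good θ (N M * 4 ^ u.length) u M := by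
  induction u generalizing M with
  | nil => simp [Good]
  | cons b u ih =>
    refine ⟨?_, Good_mono ?_ (ih (A θ b * M))⟩
    · have h1 : (1 : ℝ) ≤ 4 ^ (b :: u).length := one_le_pow₀ (by norm_num)
      have := N_nonneg M
      nlinarith
    · rw [List.length_cons, pow_succ]
      have h1 := N_A θ b M
      have h2 : (0 : ℝ) ≤ 4 ^ u.length := by positivity
      nlinarith

/-- one block: free word, return, padding -/
lemma block {θ : ℝ} (h0 : 0 < θ) (h1 : θ ≤ 1 / 100) {J : ℕ} (hJ : Real.pi ≤ θ * J) (m : ℕ) {M : Mat}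
    (hM : D1 M) (hN : N M ≤ 16) (u : List Bool) (hu : u.length = m) :
    ∃ w : List Bool, w.length = J + 34 * m ∧ Good θ (16 * 4 ^ m) (u ++ w) M ∧
      N (act θ (u ++ w) M) ≤ 16 := by
  have e1 : Good θ (16 * 4 ^ m) u M := by
    refine Good_mono ?_ (free u M)
    rw [hu]
    gcongr
  obtain ⟨w, hw1, hw2, hw3⟩ := ret h0 h1 hJ m (D1_act (w := u) hM) (Good_last e1)
  refine ⟨w ++ List.replicate (J + 34 * m - w.length) false, ?_, ?_, ?_⟩
  · simp only [List.length_append, List.length_replicate]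
    omega
  · refine Good_append e1 (Good_append (Good_mono (Good_last e1) hw2) (Good_rep _ ?_))
    have : (1 : ℝ) ≤ 4 ^ m := one_le_pow₀ (by norm_num)
    linarith
  · rw [act_append, act_append, (act_rep θ _ _).1]
    exact hw3

/-- many good words -/
lemma multi {θ : ℝ} (h0 : 0 < θ) (h1 : θ ≤ 1 / 100) {J : ℕ} (hJ : Real.pi ≤ θ * J) (m n : ℕ) :
    ∃ S : Finset (List Bool), (2 ^ m) ^ n ≤ S.card ∧ ∀ W ∈ S, W.length = n * (J + 35 * m) ∧
      Good θ (16 * 4 ^ m) W 1 ∧ N (act θ W 1) ≤ 16 := by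
  classical
  have hK : (1 : ℝ) ≤ 4 ^ m := one_le_pow₀ (by norm_num)
  induction n with
  | zero =>
    refine ⟨{[]}, by simp, ?_⟩
    intro W hW
    rw [Finset.mem_singleton] at hW
    subst hW
    refine ⟨by simp, ?_, ?_⟩
    · show N 1 ≤ _
      rw [N_one]; linarith
    · show N 1 ≤ _
      rw [N_one]; norm_num
  | succ n ih =>
    obtain ⟨S, hS, hSW⟩ := ih
    have hex : ∀ W : List Bool, ∀ u : List.Vector Bool m, ∃ w : List Bool, W ∈ S →
        (w.length = J + 34 * m ∧ Good θ (16 * 4 ^ m) (u.1 ++ w) (act θ W 1) ∧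
        N (act θ (u.1 ++ w) (act θ W 1)) ≤ 16) := by
      intro W u
      by_cases hW : W ∈ S
      · obtain ⟨w, hw⟩ := block h0 h1 hJ m (D1_act (w := W) D1_one) (hSW W hW).2.2 u.1 u.2
        exact ⟨w, fun _ => hw⟩
      · exact ⟨[], fun h => absurd h hW⟩
    choose F hF using hex
    refine ⟨(S ×ˢ (Finset.univ : Finset (List.Vector Bool m))).image
      (fun p => p.1 ++ (p.2.1 ++ F p.1 p.2)), ?_, ?_⟩
    · rw [Finset.card_image_of_injOn, Finset.card_product, Finset.card_univ, card_vector,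
        Fintype.card_bool, pow_succ]
      · exact Nat.mul_le_mul_right _ hS
      · rintro ⟨W, u⟩ hp ⟨W', u'⟩ hp' he
        simp only [Finset.coe_product, Set.mem_prod, Finset.mem_coe] at hp hp' he
        obtain ⟨h2, h3⟩ := List.append_inj he (by rw [(hSW W hp.1).1, (hSW W' hp'.1).1])
        obtain ⟨h4, -⟩ := List.append_inj h3 (by rw [u.2, u'.2])
        rw [h2, Subtype.ext h4]
    · intro W' hW'
      obtain ⟨⟨W, u⟩, hp, rfl⟩ := Finset.mem_image.1 hW'
      rw [Finset.mem_product] at hp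
      obtain ⟨h2, h3, h4⟩ := hSW W hp.1
      obtain ⟨h5, h6, h7⟩ := hF W u hp.1
      refine ⟨?_, Good_append h3 h6, ?_⟩
      · simp only [List.length_append, h2, h5, u.2]
        ring
      · show N (act θ (W ++ (u.1 ++ F W u)) 1) ≤ 16
        rw [act_append]; exact h7

/-! ### from words to points -/

/-- the point with a given word at the non-negative positions and the symbol `2` elsewhere -/
def pt (W : List Bool) : ℤ → Bool := fun i => if 0 ≤ i then (W[i.toNat]?).getD false else false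

lemma pt_nat (W : List Bool) (n : ℕ) : pt W n = (W[n]?).getD false := by
  unfold pt; simp

lemma coc_pt (θ : ℝ) (W : List Bool) (n : ℕ) (hn : n ≤ W.length) :
    coc θ (pt W) n = act θ (W.take n) 1 := by
  induction n with
  | zero => simp [coc, act]
  | succ n ih =>
    have h1 : n < W.length := by omega
    show A θ (pt W n) * coc θ (pt W) n = _
    rw [ih (by omega), List.take_succ_eq_append_getElem h1, act_append, pt_nat,
      List.getElem?_eq_getElem h1]
    rfl

lemma coc_pt_bound {θ K : ℝ} {W : List Bool} (hW : Good θ K W 1) (n : ℕ) :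
    N (coc θ (pt W) n) ≤ K := by
  rcases le_total n W.length with h | h
  · rw [coc_pt θ W n h]; exact Good_take hW n
  · obtain ⟨k, rfl⟩ := Nat.exists_eq_add_of_le h
    induction k with
    | zero =>
      rw [add_zero, coc_pt θ W _ le_rfl]
      exact Good_take hW _
    | succ k ih =>
      show N (A θ (pt W ((W.length + k : ℕ) : ℤ)) * coc θ (pt W) (W.length + k)) ≤ K
      rw [pt_nat, List.getElem?_eq_none (by omega)]
      show N (R θ * _) ≤ K
      rw [N_R]
      exact ih (by omega)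

lemma D1_coc (θ : ℝ) (x : ℤ → Bool) (n : ℕ) : D1 (coc θ x n) := by
  induction n with
  | zero => exact D1_one
  | succ n ih => exact D1_mul (D1_A _ _) ih

lemma coc_add (θ : ℝ) (x : ℤ → Bool) (m n : ℕ) :
    coc θ x (m + n) = coc θ (sh m x) n * coc θ x m := by
  induction n with
  | zero => simp [coc]
  | succ n ih =>
    show A θ (x ((m + n : ℕ) : ℤ)) * coc θ x (m + n) = A θ (x ((n : ℤ) + m)) * coc θ (sh m x) n * _
    rw [ih, Matrix.mul_assoc]
    congr 3
    push_cast; ring

/-- the adjugate -/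
def adj (M : Mat) : Mat := !![M 1 1, -M 0 1; -M 1 0, M 0 0]

lemma N_adj (M : Mat) : N (adj M) = N M := by unfold N adj; simp; ring

lemma mul_adj {M : Mat} (h : D1 M) : M * adj M = 1 := by
  unfold D1 at h
  ext i j
  rw [mul_apply']
  fin_cases i <;> fin_cases j <;> simp [adj] <;> linarith

lemma N_left {M M' : Mat} (h : D1 M') : N M ≤ N (M * M') * N M' := by
  have : M = (M * M') * adj M' := by rw [Matrix.mul_assoc, mul_adj h, Matrix.mul_one]
  calc N M = N ((M * M') * adj M') := by rw [← this]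
    _ ≤ N (M * M') * N (adj M') := N_mul _ _
    _ = _ := by rw [N_adj]

lemma N_mul_R {θ : ℝ} (M : Mat) : N (M * R θ) = N M := by
  unfold N R; simp only [mul_apply']; simp
  have := Real.sin_sq_add_cos_sq θ
  linear_combination (M 0 0 ^ 2 + M 0 1 ^ 2 + M 1 0 ^ 2 + M 1 1 ^ 2) * this

lemma coc_false {θ : ℝ} {x : ℤ → Bool} (M : Mat) (n : ℕ) (h : ∀ i : ℕ, i < n → x i = false) :
    N (M * coc θ x n) = N M := by
  induction n generalizing M with
  | zero => simp [coc]
  | succ n ih =>
    show N (M * (A θ (x n) * coc θ x n)) = _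
    rw [← Matrix.mul_assoc, ih _ fun i hi => h i (by omega), h n (by omega)]
    exact N_mul_R M

lemma mem_B {θ K : ℝ} (hK : 2 ≤ K) {W : List Bool} (hW : Good θ K W 1) : pt W ∈ B θ K := by
  intro m n
  rw [nrm_eq]
  have hK0 : 0 ≤ K := by linarith
  have hKK : K ≤ K ^ 2 := by nlinarith
  suffices h : N (coc θ (sh m (pt W)) n) ≤ K ^ 2 by
    calc Real.sqrt _ ≤ Real.sqrt (K ^ 2) := Real.sqrt_le_sqrt h
      _ = K := Real.sqrt_sq hK0
  rcases le_or_gt 0 m with hm | hm
  · obtain ⟨m, rfl⟩ := Int.eq_ofNat_of_zero_le hm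
    have h1 := N_left (M := coc θ (sh m (pt W)) n) (D1_coc θ (pt W) m)
    rw [← coc_add] at h1
    have h2 := coc_pt_bound hW (m + n)
    have h3 := coc_pt_bound hW m
    calc _ ≤ _ := h1
      _ ≤ K * K := mul_le_mul h2 h3 (N_nonneg _) hK0
      _ = K ^ 2 := by ring
  · obtain ⟨k, rfl⟩ : ∃ k : ℕ, m = -(k : ℤ) := ⟨(-m).toNat, by omega⟩
    set y := sh (-(k : ℤ)) (pt W) with hy
    have hyf : ∀ i : ℕ, i < k → y i = false := by
      intro i hi
      show pt W ((i : ℤ) + -(k : ℤ)) = false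
      unfold pt
      rw [if_neg (by omega)]
    rcases le_or_gt n k with hnk | hnk
    · have h1 := coc_false (θ := θ) (x := y) 1 n fun i hi => hyf i (by omega)
      rw [Matrix.one_mul] at h1
      rw [h1, N_one]; linarith
    · obtain ⟨l, rfl⟩ := Nat.exists_eq_add_of_le hnk.le
      rw [coc_add, coc_false _ _ hyf]
      have : sh k y = pt W := by
        funext i
        show pt W (i + k + -k) = pt W i
        congr 1; ring
      rw [this]
      exact (coc_pt_bound hW l).trans hKK

lemma cnt_ge {θ : ℝ} (h0 : 0 < θ) (h1 : θ ≤ 1 / 100) {J : ℕ} (hJ : Real.pi ≤ θ * J) (m n : ℕ) :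
    (2 ^ m) ^ n ≤ cnt θ (16 * 4 ^ m) (n * (J + 35 * m)) := by
  classical
  obtain ⟨S, hS, hSW⟩ := multi h0 h1 hJ m n
  refine hS.trans ?_
  unfold cnt
  rw [← Set.ncard_coe_finset]
  refine Set.ncard_le_ncard_of_injOn
    (fun W : List Bool => fun i : Fin (n * (J + 35 * m)) => pt W (i : ℕ)) ?_ ?_ (Set.toFinite _)
  · intro W hW
    have hK : (1 : ℝ) ≤ 4 ^ m := one_le_pow₀ (by norm_num)
    exact ⟨pt W, mem_B (by linarith) (hSW W hW).2.1, fun i => rfl⟩
  · intro W hW W' hW' he
    have e1 := (hSW W hW).1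
    have e2 := (hSW W' hW').1
    apply List.ext_getElem (by rw [e1, e2])
    intro i hi hi'
    have := congrFun he ⟨i, by omega⟩
    simp only [pt_nat, List.getElem?_eq_getElem hi, List.getElem?_eq_getElem hi', Option.getD_some]
      at this
    exact this

/-! ### entropy -/

lemma cnt_le (θ κ : ℝ) (n : ℕ) : cnt θ κ n ≤ 2 ^ n := by
  unfold cnt
  calc _ ≤ Set.ncard (Set.univ : Set (Fin n → Bool)) :=
        Set.ncard_le_ncard (Set.subset_univ _) (Set.toFinite _)
    _ = 2 ^ n := by rw [Set.ncard_univ, Nat.card_eq_fintype_card]; simp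

lemma ratio_nonneg (θ κ : ℝ) (n : ℕ) : 0 ≤ Real.log (cnt θ κ n) / n :=
  div_nonneg (Real.log_natCast_nonneg _) (Nat.cast_nonneg _)

lemma ratio_le (θ κ : ℝ) (n : ℕ) : Real.log (cnt θ κ n) / n ≤ Real.log 2 := by
  rcases Nat.eq_zero_or_pos n with rfl | hn
  · simp; exact Real.log_nonneg (by norm_num)
  · rw [div_le_iff₀ (by positivity), mul_comm, ← Real.log_pow]
    rcases Nat.eq_zero_or_pos (cnt θ κ n) with h | h
    · rw [h, Nat.cast_zero, Real.log_zero]
      exact Real.log_nonneg (one_le_pow₀ (by norm_num : (1 : ℝ) ≤ 2))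
    · exact Real.log_le_log (by positivity) (by exact_mod_cast cnt_le θ κ n)

lemma hB_le (θ κ : ℝ) : hB θ κ ≤ Real.log 2 := by
  refine limsup_le_of_le ?_ (Eventually.of_forall fun n => ratio_le θ κ n)
  exact isCoboundedUnder_le_of_le atTop (x := 0) fun n => ratio_nonneg θ κ n

lemma bdd (θ κ : ℝ) : IsBoundedUnder (· ≤ ·) atTop (fun n : ℕ => Real.log (cnt θ κ n) / n) :=
  isBoundedUnder_of ⟨Real.log 2, ratio_le θ κ⟩

lemma h_ge {θ : ℝ} (h0 : 0 < θ) (h1 : θ ≤ 1 / 100) : Real.log 2 / 36 ≤ h θ := by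
  set J : ℕ := ⌈Real.pi / θ⌉₊ with hJdef
  have hpi := Real.pi_pos
  have hJ : Real.pi ≤ θ * J := by
    have := Nat.le_ceil (Real.pi / θ)
    rw [div_le_iff₀ h0] at this
    linarith
  have hJ0 : 0 < J := by
    rcases Nat.eq_zero_or_pos J with h | h
    · rw [h] at hJ; simp at hJ; linarith
    · exact h
  have h2 : Real.log 2 / 36 ≤ hB θ (16 * 4 ^ J) := by
    refine le_limsup_of_frequently_le ?_ (bdd _ _)
    rw [frequently_atTop]
    intro a
    refine ⟨(a + 1) * (J + 35 * J), by nlinarith, ?_⟩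
    have h3 := cnt_ge h0 h1 hJ J (a + 1)
    have h4 : Real.log (((2 ^ J) ^ (a + 1) : ℕ) : ℝ) ≤
        Real.log (cnt θ (16 * 4 ^ J) ((a + 1) * (J + 35 * J))) :=
      Real.log_le_log (by positivity) (by exact_mod_cast h3)
    have hJr : (0 : ℝ) < J := by exact_mod_cast hJ0
    rw [le_div_iff₀ (by positivity)]
    refine le_trans (le_of_eq ?_) h4
    push_cast
    rw [Real.log_pow, Real.log_pow]
    push_cast; ring
  have h3 : BddAbove (Set.range fun κ : ℕ => hB θ κ) :=
    ⟨Real.log 2, by rintro _ ⟨κ, rfl⟩; exact hB_le θ κ⟩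
  have h4 := le_ciSup h3 (16 * 4 ^ J)
  refine h2.trans (le_trans (le_of_eq ?_) h4)
  push_cast; rfl

/-! ### the angle zero -/

lemma coc_zero (x : ℤ → Bool) (n : ℕ) :
    coc 0 x n 0 0 = 2 ^ ((Finset.range n).filter fun i : ℕ => x i = true).card := by
  induction n with
  | zero => simp [coc]
  | succ n ih =>
    show (A 0 (x n) * coc 0 x n) 0 0 = _
    rw [mul_apply', Finset.range_add_one, Finset.filter_insert]
    split_ifs with h
    · rw [Finset.card_insert_of_notMem (by simp), pow_succ, ← ih, h]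
      simp [A, D]; ring
    · have h' : x n = false := by simpa using h
      rw [← ih, h']
      simp [A, R]

lemma cnt_zero_le (κ : ℕ) (n : ℕ) : cnt 0 κ n ≤ (n + 1) ^ κ := by
  classical
  -- at most `κ` symbols `1`
  have h1 : ∀ x ∈ B 0 κ, ((Finset.range n).filter fun i : ℕ => x i = true).card ≤ κ := by
    intro x hx
    have h2 := hx 0 n
    have h3 : sh 0 x = x := by funext i; simp [sh]
    rw [h3, nrm_eq] at h2
    have h4 : coc 0 x n 0 0 ≤ κ := by
      refine le_trans ?_ h2
      apply Real.le_sqrt_of_sq_le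
      unfold N; nlinarith [sq_nonneg (coc 0 x n 0 1), sq_nonneg (coc 0 x n 1 0),
        sq_nonneg (coc 0 x n 1 1)]
    rw [coc_zero] at h4
    have h5 : ((Finset.range n).filter fun i : ℕ => x i = true).card <
      2 ^ ((Finset.range n).filter fun i : ℕ => x i = true).card := Nat.lt_two_pow_self
    have h6 : 2 ^ ((Finset.range n).filter fun i : ℕ => x i = true).card ≤ κ := by exact_mod_cast h4
    omega
  -- encoding
  let E : (Fin κ → Fin (n + 1)) → (Fin n → Bool) := fun g i => decide (∃ j, (g j : ℕ) = i)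
  have hsub : {w : Fin n → Bool | ∃ x ∈ B 0 κ, ∀ i : Fin n, x (i : ℕ) = w i} ⊆ Set.range E := by
    rintro w ⟨x, hx, hxw⟩
    set s := (Finset.range n).filter fun i : ℕ => x i = true with hs
    have hsκ : s.card ≤ κ := h1 x hx
    have hl : s.toList.length = s.card := Finset.length_toList s
    have hmem : ∀ (j : ℕ) (hj : j < s.toList.length), s.toList[j] < n := by
      intro j hj
      have : s.toList[j] ∈ s := Finset.mem_toList.1 (List.getElem_mem hj)
      exact Finset.mem_range.1 (Finset.mem_filter.1 this).1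
    refine ⟨fun j => if hj : j.1 < s.toList.length then ⟨s.toList[j.1], by
      have := hmem j.1 hj; omega⟩ else ⟨n, by omega⟩, ?_⟩
    funext i
    rw [← hxw i]
    show decide _ = _
    rw [Bool.eq_iff_iff, decide_eq_true_iff]
    constructor
    · rintro ⟨j, hj⟩
      by_cases hjl : j.1 < s.toList.length
      · beta_reduce at hj
        rw [dif_pos hjl] at hj
        have h2 : s.toList[j.1] ∈ s := Finset.mem_toList.1 (List.getElem_mem hjl)
        have h3 : s.toList[j.1] = (i : ℕ) := hj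
        rw [h3] at h2
        exact (Finset.mem_filter.1 h2).2
      · beta_reduce at hj
        rw [dif_neg hjl] at hj
        have h3 : n = (i : ℕ) := hj
        have := i.2
        omega
    · intro hi
      have h2 : (i : ℕ) ∈ s := Finset.mem_filter.2 ⟨Finset.mem_range.2 i.2, hi⟩
      obtain ⟨j, hj, hji⟩ := List.getElem_of_mem (Finset.mem_toList.2 h2)
      refine ⟨⟨j, by omega⟩, ?_⟩
      beta_reduce
      rw [dif_pos hj]
      exact hji
  unfold cnt
  calc _ ≤ (Set.range E).ncard := Set.ncard_le_ncard hsub (Set.toFinite _)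
    _ ≤ (n + 1) ^ κ := by
      rw [← Set.image_univ]
      refine (Set.ncard_image_le (Set.toFinite _)).trans ?_
      rw [Set.ncard_univ, Nat.card_eq_fintype_card]
      simp

lemma hB_zero (κ : ℕ) : hB 0 κ = 0 := by
  have h1 : Tendsto (fun n : ℕ => Real.log ((n : ℝ) + 1) / n) atTop (𝓝 0) := by
    have h2 := (Real.tendsto_pow_log_div_mul_add_atTop 1 (-1) 1 one_ne_zero).comp
      (tendsto_atTop_add_const_right atTop (1 : ℝ) tendsto_natCast_atTop_atTop)
    refine h2.congr fun n => ?_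
    simp
  have h2 : Tendsto (fun n : ℕ => (κ : ℝ) * (Real.log ((n : ℝ) + 1) / n)) atTop (𝓝 0) := by
    simpa using h1.const_mul (κ : ℝ)
  have h3 : Tendsto (fun n : ℕ => Real.log (cnt 0 κ n) / n) atTop (𝓝 0) := by
    refine squeeze_zero (fun n => ratio_nonneg 0 κ n) (fun n => ?_) h2
    rw [← mul_div_assoc]
    apply div_le_div_of_nonneg_right _ (Nat.cast_nonneg n)
    rw [← Real.log_pow]
    rcases Nat.eq_zero_or_pos (cnt 0 κ n) with h | h
    · rw [h, Nat.cast_zero, Real.log_zero]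
      exact Real.log_nonneg (one_le_pow₀ (by linarith [Nat.cast_nonneg (α := ℝ) n]))
    · exact Real.log_le_log (by positivity) (by exact_mod_cast cnt_zero_le κ n)
  exact h3.limsup_eq

lemma h_zero : h 0 = 0 := by
  unfold h
  simp only [hB_zero, ciSup_const]

/-- The entropy `h` of the set of fiberwise bounded orbits is discontinuous at the angle zero:
`h 0 = 0`, while `h θ ≥ log 2 / 36` for all angles `0 < θ ≤ 1/100`. -/
theorem result : h 0 = 0 ∧ (∀ θ : ℝ, 0 < θ → θ ≤ 1 / 100 → Real.log 2 / 36 ≤ h θ) ∧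
    ¬ ContinuousAt h 0 := by
  refine ⟨h_zero, fun θ h0 h1 => h_ge h0 h1, fun hc => ?_⟩
  have hlog : 0 < Real.log 2 / 36 := div_pos (Real.log_pos (by norm_num)) (by norm_num)
  obtain ⟨δ, hδ, hd⟩ := Metric.continuousAt_iff.1 hc _ hlog
  have h1 := @hd (min (δ / 2) (1 / 100)) (by
    rw [Real.dist_eq, sub_zero, abs_of_nonneg (by positivity)]
    exact lt_of_le_of_lt (min_le_left _ _) (by linarith))
  rw [h_zero, Real.dist_eq, sub_zero] at h1
  have h2 := h_ge (θ := min (δ / 2) (1 / 100)) (by positivity) (min_le_right _ _)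
  have h3 := le_abs_self (h (min (δ / 2) (1 / 100)))
  linarith

end Pool.Agent.Results.MP_3f0cb5_an.DiscontinuousAtZero
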